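import Pool.Agent.Helper35.Stz.Gauss

/-!
# The sieve inequality
-/

set_option autoImplicit false

namespace Stz

open Finset

open scoped ComplexConjugate

theorem Th_mul (A N q q' : ℕ) [NeZero A] (hN : 1 ≤ N) (hq : 1 ≤ q) (hq' : 1 ≤ q') (hqA : q ∣ A)
    (hqA' : q' ∣ A) (hco : Nat.Coprime q q') (u : ZMod A) :
    Th A N (q * q') u = ∑ b ∈ range q, ∑ b' ∈ range q',
      fej A N (u + ((b * (A / q) : ℕ) : ZMod A) + ((b' * (A / q') : ℕ) : ZMod A)) := by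
  rw [Th_eq A N (q * q') (Nat.mul_pos hq hq') hN u]
  simp only [← fej_re A N hN]
  rw [comm3]
  refine sum_congr rfl fun m _ => ?_
  have h2 : ∑ b ∈ range q, ∑ b' ∈ range q', ps A ((m : ZMod A) *
      (u + ((b * (A / q) : ℕ) : ZMod A) + ((b' * (A / q') : ℕ) : ZMod A))) =
      (if (q : ℤ) ∣ m then (q : ℂ) else 0) * (if (q' : ℤ) ∣ m then (q' : ℂ) else 0) *
        ps A ((m : ZMod A) * u) := by
    rw [← sum_ps_div A q hq hqA m, ← sum_ps_div A q' hq' hqA' m, sum_mul_sum, sum_mul]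
    refine sum_congr rfl fun b _ => ?_
    rw [sum_mul]
    refine sum_congr rfl fun b' _ => ?_
    rw [mul_add, mul_add, ps_add, ps_add]
    ring
  have h3 : ∑ b ∈ range q, ∑ b' ∈ range q', wt N m * (ps A ((m : ZMod A) *
      (u + ((b * (A / q) : ℕ) : ZMod A) + ((b' * (A / q') : ℕ) : ZMod A)))).re =
      wt N m * (∑ b ∈ range q, ∑ b' ∈ range q', ps A ((m : ZMod A) *
      (u + ((b * (A / q) : ℕ) : ZMod A) + ((b' * (A / q') : ℕ) : ZMod A)))).re := by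
    rw [Complex.re_sum, mul_sum]
    refine sum_congr rfl fun b _ => ?_
    rw [Complex.re_sum, mul_sum]
  rw [h3, h2]
  congr 1
  have hdvd : ((q * q' : ℕ) : ℤ) ∣ m ↔ (q : ℤ) ∣ m ∧ (q' : ℤ) ∣ m := by
    push_cast
    constructor
    · intro h
      exact ⟨dvd_of_mul_right_dvd h, dvd_of_mul_left_dvd h⟩
    · rintro ⟨h1, h2⟩
      exact IsCoprime.mul_dvd (Nat.isCoprime_iff_coprime.mpr hco) h1 h2
  by_cases h1 : (q : ℤ) ∣ m
  · by_cases h2 : (q' : ℤ) ∣ m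
    · rw [if_pos (hdvd.mpr ⟨h1, h2⟩), if_pos h1, if_pos h2, ← Complex.ofReal_natCast,
        ← Complex.ofReal_natCast, ← Complex.ofReal_mul, Complex.re_ofReal_mul]
      push_cast
      rfl
    · rw [if_neg (fun h => h2 (hdvd.mp h).2), if_neg h2]
      simp
  · rw [if_neg (fun h => h1 (hdvd.mp h).1), if_neg h1]
    simp

/-- the kernel -/
noncomputable def ker (A : ℕ) [NeZero A] (N : ℕ) (s u : ZMod A) : ℂ :=
  ∑ m ∈ Icc (-(2 * N : ℤ)) (2 * N), (wt N m : ℂ) * (ps A (-(s * (m : ZMod A) ^ 2)) *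
    ps A ((m : ZMod A) * u))

theorem ker_bound (A N q q' : ℕ) [NeZero A] (hN : 1 ≤ N) (hq : q.Prime) (hq2 : q ≠ 2)
    (hqA : q ∣ A) (hq' : q'.Prime) (hq2' : q' ≠ 2) (hqA' : q' ∣ A) (hne : q ≠ q') (a a' : ℕ)
    (ha : ¬ q ∣ a) (ha' : ¬ q' ∣ a') (u : ZMod A) :
    ‖ker A N (sh A q q' a a') u‖ ≤
      (Real.sqrt q)⁻¹ * (Real.sqrt q')⁻¹ * Th A N (q * q') u := by
  obtain ⟨γ, hγ, hγe⟩ := sq_expand A q hq hq2 hqA a ha
  obtain ⟨γ', hγ', hγe'⟩ := sq_expand A q' hq' hq2' hqA' a' ha'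
  have h1 : ker A N (sh A q q' a a') u = ∑ b ∈ range q, ∑ b' ∈ range q', γ b * γ' b' *
      ((fej A N (u + ((b * (A / q) : ℕ) : ZMod A) + ((b' * (A / q') : ℕ) : ZMod A)) : ℝ) : ℂ) := by
    simp only [← fej_eq A N hN]
    simp only [mul_sum]
    rw [comm3]
    unfold ker
    refine sum_congr rfl fun m _ => ?_
    have h2 : ps A (-(sh A q q' a a' * (m : ZMod A) ^ 2)) =
        ps A (-(((a * (A / q) : ℕ) : ZMod A) * (m : ZMod A) ^ 2)) *
        ps A (-(((a' * (A / q') : ℕ) : ZMod A) * (m : ZMod A) ^ 2)) := by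
      rw [← ps_add]
      congr 1
      unfold sh
      push_cast
      ring
    rw [h2, hγe m, hγe' m, sum_mul_sum, sum_mul, mul_sum]
    refine sum_congr rfl fun b _ => ?_
    rw [sum_mul, mul_sum]
    refine sum_congr rfl fun b' _ => ?_
    rw [mul_add, mul_add, ps_add, ps_add]
    ring
  rw [h1, Th_mul A N q q' hN hq.one_le hq'.one_le hqA hqA'
    ((Nat.coprime_primes hq hq').mpr hne) u, mul_sum]
  refine (norm_sum_le _ _).trans (sum_le_sum fun b _ => ?_)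
  rw [mul_sum]
  refine (norm_sum_le _ _).trans (sum_le_sum fun b' _ => ?_)
  rw [norm_mul, norm_mul, Complex.norm_real, Real.norm_of_nonneg (fej_nonneg _ _ _)]
  exact mul_le_mul_of_nonneg_right (mul_le_mul (hγ b) (hγ' b') (norm_nonneg _) (by positivity))
    (fej_nonneg _ _ _)

/-- correlations -/
theorem corr (A : ℕ) [NeZero A] (g : ZMod A → ℂ) (s : ZMod A) :
    ∑ k : ZMod A, ps A (s * k) * ((‖ft A g k‖ ^ 2 : ℝ) : ℂ) =
      (A : ℂ)⁻¹ * ∑ z, g z * conj (g (z + s)) := by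
  have hA : (A : ℂ) ≠ 0 := Nat.cast_ne_zero.mpr (NeZero.ne A)
  have hcj : conj ((A : ℂ)⁻¹) = (A : ℂ)⁻¹ := by
    rw [map_inv₀, Complex.conj_natCast]
  calc ∑ k : ZMod A, ps A (s * k) * ((‖ft A g k‖ ^ 2 : ℝ) : ℂ)
      = ∑ k : ZMod A, ∑ z : ZMod A, ∑ z' : ZMod A, (A : ℂ)⁻¹ ^ 2 * (g z * conj (g z')) *
          ps A (k * (z - z' + s)) := by
        refine sum_congr rfl fun k _ => ?_
        rw [sq_norm_eq]
        unfold ft
        rw [map_mul, hcj, map_sum]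
        have h : (A : ℂ)⁻¹ * (∑ z, g z * ps A (k * z)) *
            ((A : ℂ)⁻¹ * ∑ z, conj (g z * ps A (k * z))) =
            (A : ℂ)⁻¹ ^ 2 * ((∑ z, g z * ps A (k * z)) * ∑ z, conj (g z * ps A (k * z))) := by
          ring
        rw [h, sum_mul_sum, mul_sum, mul_sum]
        refine sum_congr rfl fun z _ => ?_
        rw [mul_sum, mul_sum]
        refine sum_congr rfl fun z' _ => ?_
        rw [map_mul, ← ps_neg]
        have h2 : k * (z - z' + s) = s * k + (k * z + -(k * z')) := by ring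
        rw [h2, ps_add, ps_add]
        ring
    _ = ∑ z : ZMod A, ∑ z' : ZMod A, (A : ℂ)⁻¹ ^ 2 * (g z * conj (g z')) *
          ∑ k : ZMod A, ps A (k * (z - z' + s)) := by
        rw [← comm3]
        refine sum_congr rfl fun z _ => sum_congr rfl fun z' _ => ?_
        rw [mul_sum]
    _ = ∑ z : ZMod A, (A : ℂ)⁻¹ * (g z * conj (g (z + s))) := by
        refine sum_congr rfl fun z _ => ?_
        rw [sum_eq_single (z + s)]
        · rw [sum_ps, if_pos (by ring)]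
          field_simp
        · intro z' _ hz
          rw [sum_ps, if_neg, mul_zero]
          intro h
          apply hz
          have : z + s = z' := by
            have h3 : z - z' + s = (z + s) - z' := by ring
            rw [h3] at h
            exact sub_eq_zero.mp h
          exact this.symm
        · intro h
          exact absurd (mem_univ _) h
    _ = _ := by rw [mul_sum]

theorem inner_eq (A N : ℕ) [NeZero A] (f : ZMod A → ZMod A → ℂ) (s : ZMod A) :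
    ∑ m ∈ Icc (-(2 * N : ℤ)) (2 * N), (wt N m : ℂ) * (ps A (-(s * (m : ZMod A) ^ 2)) *
      ((A : ℂ)⁻¹ * ∑ z, fm A f m z * conj (fm A f m (z + s)))) =
    (A : ℂ)⁻¹ * ∑ z : ZMod A, (A : ℂ)⁻¹ ^ 2 * ∑ y : ZMod A, ∑ y' : ZMod A,
      f z y * conj (f (z + s) y') * ker A N s (y - y') := by
  have hcj : conj ((A : ℂ)⁻¹) = (A : ℂ)⁻¹ := by
    rw [map_inv₀, Complex.conj_natCast]
  have h1 : ∀ (m : ℤ) (z : ZMod A), fm A f m z * conj (fm A f m (z + s)) =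
      (A : ℂ)⁻¹ ^ 2 * ∑ y : ZMod A, ∑ y' : ZMod A, f z y * conj (f (z + s) y') *
        ps A ((m : ZMod A) * (y - y')) := by
    intro m z
    unfold fm
    rw [map_mul, hcj, map_sum]
    have h : (A : ℂ)⁻¹ * (∑ y, f z y * ps A ((m : ZMod A) * y)) *
        ((A : ℂ)⁻¹ * ∑ y, conj (f (z + s) y * ps A ((m : ZMod A) * y))) =
        (A : ℂ)⁻¹ ^ 2 * ((∑ y, f z y * ps A ((m : ZMod A) * y)) *
          ∑ y, conj (f (z + s) y * ps A ((m : ZMod A) * y))) := by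
      ring
    rw [h, sum_mul_sum]
    congr 1
    refine sum_congr rfl fun y _ => sum_congr rfl fun y' _ => ?_
    rw [map_mul, ← ps_neg]
    have h2 : (m : ZMod A) * (y - y') = (m : ZMod A) * y + -((m : ZMod A) * y') := by ring
    rw [h2, ps_add]
    ring
  simp only [h1]
  unfold ker
  simp only [mul_sum]
  rw [sum_comm]
  refine sum_congr rfl fun z _ => ?_
  rw [sum_comm]
  refine sum_congr rfl fun y _ => ?_
  rw [sum_comm]
  refine sum_congr rfl fun y' _ => sum_congr rfl fun m _ => ?_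
  ring

theorem sqrt4 (q q' : ℕ) : (Real.sqrt q)⁻¹ * (Real.sqrt q')⁻¹ *
    ((Real.sqrt q)⁻¹ * (Real.sqrt q')⁻¹) = ((q : ℝ) * q')⁻¹ := by
  have h1 : Real.sqrt q * Real.sqrt q = q := Real.mul_self_sqrt (Nat.cast_nonneg q)
  have h2 : Real.sqrt q' * Real.sqrt q' = q' := Real.mul_self_sqrt (Nat.cast_nonneg q')
  calc (Real.sqrt q)⁻¹ * (Real.sqrt q')⁻¹ * ((Real.sqrt q)⁻¹ * (Real.sqrt q')⁻¹)
      = ((Real.sqrt q * Real.sqrt q) * (Real.sqrt q' * Real.sqrt q'))⁻¹ := by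
        rw [mul_inv, mul_inv, mul_inv]
        ring
    _ = _ := by rw [h1, h2]

/-- one pair of primes -/
theorem pair_bound (A N q q' : ℕ) [NeZero A] (hN : 1 ≤ N) (hq : q.Prime) (hq2 : q ≠ 2)
    (hqA : q ∣ A) (hq' : q'.Prime) (hq2' : q' ≠ 2) (hqA' : q' ∣ A) (hne : q ≠ q')
    (f : ZMod A → ZMod A → ℂ) :
    ∑ m ∈ Icc (-(2 * N : ℤ)) (2 * N), wt N m * ∑ k : ZMod A,
      chi A q (k - (m : ZMod A) ^ 2) * chi A q' (k - (m : ZMod A) ^ 2) *
        ‖ft A (fm A f m) k‖ ^ 2 ≤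
      ((q : ℝ) * q')⁻¹ * ∑ a ∈ range q, ∑ a' ∈ range q', (A : ℝ)⁻¹ * ∑ z : ZMod A,
        (A : ℝ)⁻¹ ^ 2 * ∑ y : ZMod A, ∑ y' : ZMod A, ‖f z y‖ * ‖f (z + sh A q q' a a') y'‖ *
          Th A N (q * q') (y' - y) := by
  obtain ⟨c, hc0, hc, hce⟩ := chi_expand A q hq hq2 hqA
  obtain ⟨c', hc0', hc', hce'⟩ := chi_expand A q' hq' hq2' hqA'
  have hqq : q * q' ∣ A := by
    exact Nat.Coprime.mul_dvd_of_dvd_of_dvd ((Nat.coprime_primes hq hq').mpr hne) hqA hqA'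
  have hTh : ∀ u : ZMod A, 0 ≤ Th A N (q * q') u := fun u =>
    Th_nonneg A N (q * q') (Nat.mul_pos hq.pos hq'.pos) hN hqq u
  set T : ℝ := ∑ m ∈ Icc (-(2 * N : ℤ)) (2 * N), wt N m * ∑ k : ZMod A,
      chi A q (k - (m : ZMod A) ^ 2) * chi A q' (k - (m : ZMod A) ^ 2) *
        ‖ft A (fm A f m) k‖ ^ 2 with hT
  have hTC : (T : ℂ) = ∑ a ∈ range q, ∑ a' ∈ range q', c a * c' a' *
      ((A : ℂ)⁻¹ * ∑ z : ZMod A, (A : ℂ)⁻¹ ^ 2 * ∑ y : ZMod A, ∑ y' : ZMod A,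
      f z y * conj (f (z + sh A q q' a a') y') * ker A N (sh A q q' a a') (y - y')) := by
    simp only [← inner_eq, ← corr]
    rw [hT]
    push_cast
    simp only [mul_sum]
    rw [comm3]
    refine sum_congr rfl fun m _ => ?_
    rw [comm3]
    refine sum_congr rfl fun k _ => ?_
    rw [hce, hce', sum_mul_sum, sum_mul, mul_sum]
    refine sum_congr rfl fun a _ => ?_
    rw [sum_mul, mul_sum]
    refine sum_congr rfl fun a' _ => ?_
    have h2 : ps A (((a * (A / q) : ℕ) : ZMod A) * (k - (m : ZMod A) ^ 2)) *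
        ps A (((a' * (A / q') : ℕ) : ZMod A) * (k - (m : ZMod A) ^ 2)) =
        ps A (-(sh A q q' a a' * (m : ZMod A) ^ 2)) * ps A (sh A q q' a a' * k) := by
      rw [← ps_add, ← ps_add]
      congr 1
      unfold sh
      push_cast
      ring
    calc (wt N m : ℂ) * (c a * ps A (((a * (A / q) : ℕ) : ZMod A) * (k - (m : ZMod A) ^ 2)) *
          (c' a' * ps A (((a' * (A / q') : ℕ) : ZMod A) * (k - (m : ZMod A) ^ 2))) *
            (‖ft A (fm A f m) k‖ : ℂ) ^ 2)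
        = (wt N m : ℂ) * (c a * c' a' *
          (ps A (((a * (A / q) : ℕ) : ZMod A) * (k - (m : ZMod A) ^ 2)) *
          ps A (((a' * (A / q') : ℕ) : ZMod A) * (k - (m : ZMod A) ^ 2))) *
            (‖ft A (fm A f m) k‖ : ℂ) ^ 2) := by ring
      _ = _ := by
          rw [h2]
          ring
  have hA0 : (0 : ℝ) ≤ (A : ℝ)⁻¹ := by positivity
  have hmain : |T| ≤ ((q : ℝ) * q')⁻¹ * ∑ a ∈ range q, ∑ a' ∈ range q', (A : ℝ)⁻¹ *
      ∑ z : ZMod A, (A : ℝ)⁻¹ ^ 2 * ∑ y : ZMod A, ∑ y' : ZMod A,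
        ‖f z y‖ * ‖f (z + sh A q q' a a') y'‖ * Th A N (q * q') (y' - y) := by
    rw [← Real.norm_eq_abs, ← Complex.norm_real, hTC, mul_sum]
    refine (norm_sum_le _ _).trans (sum_le_sum fun a _ => ?_)
    rw [mul_sum]
    refine (norm_sum_le _ _).trans (sum_le_sum fun a' _ => ?_)
    have hpos : 0 ≤ (A : ℝ)⁻¹ * ∑ z : ZMod A, (A : ℝ)⁻¹ ^ 2 * ∑ y : ZMod A, ∑ y' : ZMod A,
        ‖f z y‖ * ‖f (z + sh A q q' a a') y'‖ * Th A N (q * q') (y' - y) := by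
      refine mul_nonneg hA0 (sum_nonneg fun z _ => mul_nonneg (by positivity)
        (sum_nonneg fun y _ => sum_nonneg fun y' _ => mul_nonneg (by positivity) (hTh _)))
    have hqpos : 0 ≤ ((q : ℝ) * q')⁻¹ := by positivity
    by_cases ha : q ∣ a
    · rw [hc0 a ha]
      simp only [zero_mul, norm_zero]
      exact mul_nonneg hqpos hpos
    by_cases ha' : q' ∣ a'
    · rw [hc0' a' ha']
      simp only [mul_zero, zero_mul, norm_zero]
      exact mul_nonneg hqpos hpos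
    have hker : ∀ u : ZMod A, ‖ker A N (sh A q q' a a') u‖ ≤
        (Real.sqrt q)⁻¹ * (Real.sqrt q')⁻¹ * Th A N (q * q') u := fun u =>
      ker_bound A N q q' hN hq hq2 hqA hq' hq2' hqA' hne a a' ha ha' u
    have h1 : ‖(A : ℂ)⁻¹ * ∑ z : ZMod A, (A : ℂ)⁻¹ ^ 2 * ∑ y : ZMod A, ∑ y' : ZMod A,
        f z y * conj (f (z + sh A q q' a a') y') * ker A N (sh A q q' a a') (y - y')‖ ≤
        (Real.sqrt q)⁻¹ * (Real.sqrt q')⁻¹ * ((A : ℝ)⁻¹ * ∑ z : ZMod A, (A : ℝ)⁻¹ ^ 2 *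
          ∑ y : ZMod A, ∑ y' : ZMod A,
            ‖f z y‖ * ‖f (z + sh A q q' a a') y'‖ * Th A N (q * q') (y' - y)) := by
      rw [norm_mul, norm_inv, Complex.norm_natCast, mul_left_comm]
      apply mul_le_mul_of_nonneg_left _ hA0
      rw [mul_sum]
      refine (norm_sum_le _ _).trans (sum_le_sum fun z _ => ?_)
      rw [norm_mul, norm_pow, norm_inv, Complex.norm_natCast, mul_left_comm]
      apply mul_le_mul_of_nonneg_left _ (by positivity)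
      rw [mul_sum]
      refine (norm_sum_le _ _).trans (sum_le_sum fun y _ => ?_)
      rw [mul_sum]
      refine (norm_sum_le _ _).trans (sum_le_sum fun y' _ => ?_)
      rw [norm_mul, norm_mul, RCLike.norm_conj]
      have h3 : Th A N (q * q') (y' - y) = Th A N (q * q') (y - y') := by
        rw [← Th_neg, neg_sub]
      rw [h3]
      calc ‖f z y‖ * ‖f (z + sh A q q' a a') y'‖ * ‖ker A N (sh A q q' a a') (y - y')‖
          ≤ ‖f z y‖ * ‖f (z + sh A q q' a a') y'‖ *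
            ((Real.sqrt q)⁻¹ * (Real.sqrt q')⁻¹ * Th A N (q * q') (y - y')) :=
            mul_le_mul_of_nonneg_left (hker _) (by positivity)
        _ = _ := by ring
    calc ‖c a * c' a' * ((A : ℂ)⁻¹ * ∑ z : ZMod A, (A : ℂ)⁻¹ ^ 2 * ∑ y : ZMod A, ∑ y' : ZMod A,
        f z y * conj (f (z + sh A q q' a a') y') * ker A N (sh A q q' a a') (y - y'))‖
        = ‖c a‖ * ‖c' a'‖ * ‖(A : ℂ)⁻¹ * ∑ z : ZMod A, (A : ℂ)⁻¹ ^ 2 * ∑ y : ZMod A,
          ∑ y' : ZMod A, f z y * conj (f (z + sh A q q' a a') y') *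
            ker A N (sh A q q' a a') (y - y')‖ := by
          rw [norm_mul, norm_mul]
      _ ≤ ((Real.sqrt q)⁻¹ * (Real.sqrt q')⁻¹) * ((Real.sqrt q)⁻¹ * (Real.sqrt q')⁻¹ *
          ((A : ℝ)⁻¹ * ∑ z : ZMod A, (A : ℝ)⁻¹ ^ 2 *
          ∑ y : ZMod A, ∑ y' : ZMod A,
            ‖f z y‖ * ‖f (z + sh A q q' a a') y'‖ * Th A N (q * q') (y' - y))) :=
          mul_le_mul (mul_le_mul (hc a) (hc' a') (norm_nonneg _) (by positivity)) h1
            (norm_nonneg _) (by positivity)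
      _ = _ := by
          rw [← mul_assoc, sqrt4]
  exact (le_abs_self T).trans hmain

/-! ### values of `chi` -/

theorem chi_sq_le (A q : ℕ) (k : ZMod A) : chi A q k * chi A q k ≤ 1 := by
  unfold chi
  split_ifs with h
  · have : Fact q.Prime := ⟨h⟩
    by_cases h0 : (k.cast : ZMod q) = 0
    · rw [h0]
      simp
    · rcases quadraticChar_dichotomy h0 with h1 | h1 <;> rw [h1] <;> norm_num
  · norm_num

theorem chi_nat_sq (A q n : ℕ) [NeZero A] (hq : q.Prime) (hqA : q ∣ A) :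
    chi A q ((n : ZMod A) ^ 2) = if q ∣ n then 0 else 1 := by
  have : Fact q.Prime := ⟨hq⟩
  unfold chi
  rw [dif_pos hq]
  have h1 : (((n : ZMod A) ^ 2).cast : ZMod q) = (n : ZMod q) ^ 2 := by
    have h2 := ZMod.cast_natCast (R := ZMod q) hqA (n ^ 2)
    push_cast at h2
    exact h2
  rw [h1]
  split_ifs with h
  · have h3 : (n : ZMod q) = 0 := (ZMod.natCast_eq_zero_iff n q).mpr h
    rw [h3]
    simp
  · have h3 : (n : ZMod q) ≠ 0 := fun h4 => h ((ZMod.natCast_eq_zero_iff n q).mp h4)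
    rw [quadraticChar_sq_one' h3]
    norm_num

/-! ### the sieve -/

theorem avg_ge (A : ℕ) [NeZero A] (Q : Finset ℕ) (hQ : ∀ q ∈ Q, q.Prime ∧ q ≠ 2 ∧ q ∣ A)
    (hQ0 : Q.Nonempty) (n : ℕ) (hn : 2 * (Q.filter fun q => q ∣ n).card ≤ Q.card) :
    1 ≤ 4 / (Q.card : ℝ) ^ 2 * (∑ q ∈ Q, chi A q ((n : ZMod A) ^ 2)) ^ 2 := by
  have hc : (0 : ℝ) < Q.card := by exact_mod_cast hQ0.card_pos
  have h1 : ∑ q ∈ Q, chi A q ((n : ZMod A) ^ 2) = ((Q.filter fun q => ¬ q ∣ n).card : ℝ) := by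
    rw [card_filter]
    push_cast
    refine sum_congr rfl fun q hq => ?_
    rw [chi_nat_sq A q n (hQ q hq).1 (hQ q hq).2.2]
    split_ifs <;> simp_all
  have h2 : (Q.filter fun q => q ∣ n).card + (Q.filter fun q => ¬ q ∣ n).card = Q.card :=
    card_filter_add_card_filter_not _
  have h3 : (Q.card : ℝ) ≤ 2 * ((Q.filter fun q => ¬ q ∣ n).card : ℝ) := by
    have : Q.card ≤ 2 * (Q.filter fun q => ¬ q ∣ n).card := by omega
    exact_mod_cast this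
  rw [h1, div_mul_eq_mul_div, le_div_iff₀ (by positivity)]
  nlinarith

/-- The sieve inequality. -/
theorem sieve (A N : ℕ) [NeZero A] (hN : 1 ≤ N) (I : Finset ℕ)
    (hI : ∀ n ∈ I, 1 ≤ n ∧ n ^ 2 < A)
    (Q : Finset ℕ) (hQ : ∀ q ∈ Q, q.Prime ∧ q ≠ 2 ∧ q ∣ A) (hQ0 : Q.Nonempty)
    (hQI : ∀ n ∈ I, 2 * (Q.filter fun q => q ∣ n).card ≤ Q.card)
    (f : ZMod A → ZMod A → ℂ) :
    En A I N f ≤ 4 / Q.card * ∑ m ∈ Icc (-(2 * N : ℤ)) (2 * N),
        wt N m * ((A : ℝ)⁻¹ * ∑ z, ‖fm A f m z‖ ^ 2)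
      + 4 / (Q.card : ℝ) ^ 2 * ∑ p ∈ Q.offDiag, ((p.1 : ℝ) * p.2)⁻¹ *
        ∑ a ∈ range p.1, ∑ a' ∈ range p.2, (A : ℝ)⁻¹ * ∑ z : ZMod A, (A : ℝ)⁻¹ ^ 2 *
          ∑ y : ZMod A, ∑ y' : ZMod A, ‖f z y‖ * ‖f (z + sh A p.1 p.2 a a') y'‖ *
            Th A N (p.1 * p.2) (y' - y) := by
  classical
  have hc : (0 : ℝ) < Q.card := by exact_mod_cast hQ0.card_pos
  set c4 : ℝ := 4 / (Q.card : ℝ) ^ 2 with hc4
  have hc4p : 0 ≤ c4 := by positivity
  set G : ℤ → ZMod A → ℝ := fun m k =>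
    c4 * (∑ q ∈ Q, chi A q (k - (m : ZMod A) ^ 2)) ^ 2 * ‖ft A (fm A f m) k‖ ^ 2 with hG
  have hGp : ∀ m k, 0 ≤ G m k := fun m k => by
    rw [hG]
    positivity
  -- step 1
  have h1 : En A I N f ≤ ∑ m ∈ range N, ∑ k : ZMod A, G m k := by
    unfold En
    rw [sum_comm]
    refine sum_le_sum fun m _ => ?_
    have hinj : Set.InjOn (fun n : ℕ => ((n ^ 2 + m ^ 2 : ℕ) : ZMod A)) (I : Finset ℕ) := by
      intro n hn n' hn' h
      apply inj_sq A I (fun n hn => (hI n hn).2) hn hn'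
      push_cast at h ⊢
      exact add_right_cancel h
    calc ∑ n ∈ I, ‖ft A (fm A f m) ((n ^ 2 + m ^ 2 : ℕ) : ZMod A)‖ ^ 2
        ≤ ∑ n ∈ I, G m ((n ^ 2 + m ^ 2 : ℕ) : ZMod A) := by
          refine sum_le_sum fun n hn => ?_
          rw [hG]
          simp only
          have h2 : ((n ^ 2 + m ^ 2 : ℕ) : ZMod A) - (((m : ℕ) : ℤ) : ZMod A) ^ 2 =
              (n : ZMod A) ^ 2 := by
            push_cast
            ring
          rw [h2]
          have h3 := avg_ge A Q hQ hQ0 n (hQI n hn)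
          calc ‖ft A (fm A f m) ((n ^ 2 + m ^ 2 : ℕ) : ZMod A)‖ ^ 2
              = 1 * ‖ft A (fm A f m) ((n ^ 2 + m ^ 2 : ℕ) : ZMod A)‖ ^ 2 := (one_mul _).symm
            _ ≤ _ := mul_le_mul_of_nonneg_right h3 (sq_nonneg _)
      _ = ∑ k ∈ I.image (fun n : ℕ => ((n ^ 2 + m ^ 2 : ℕ) : ZMod A)), G m k :=
          (sum_image hinj).symm
      _ ≤ _ := sum_le_sum_of_subset_of_nonneg (subset_univ _) fun k _ _ => hGp _ _
  -- step 2
  have h2 : ∑ m ∈ range N, ∑ k : ZMod A, G m k ≤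
      ∑ m ∈ Icc (-(2 * N : ℤ)) (2 * N), wt N m * ∑ k : ZMod A, G m k := by
    calc ∑ m ∈ range N, ∑ k : ZMod A, G m k
        ≤ ∑ m ∈ range N, wt N m * ∑ k : ZMod A, G m k := by
          refine sum_le_sum fun m hm => ?_
          have h3 := one_le_wt N hN m (mem_range.mp hm)
          have h4 : 0 ≤ ∑ k : ZMod A, G m k := sum_nonneg fun k _ => hGp _ _
          nlinarith
      _ = ∑ m ∈ (range N).image (fun m : ℕ => (m : ℤ)), wt N m * ∑ k : ZMod A, G m k :=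
          (sum_image (f := fun m : ℤ => wt N m * ∑ k : ZMod A, G m k) (s := range N)
            (g := fun m : ℕ => (m : ℤ)) fun m _ m' _ h => Nat.cast_injective h).symm
      _ ≤ _ := by
          apply sum_le_sum_of_subset_of_nonneg
          · intro m hm
            rw [mem_image] at hm
            obtain ⟨j, hj, rfl⟩ := hm
            rw [mem_range] at hj
            rw [mem_Icc]
            omega
          · intro m _ _
            exact mul_nonneg (wt_nonneg N m) (sum_nonneg fun k _ => hGp _ _)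
  -- step 3: expansion of the square
  have h3 : ∑ m ∈ Icc (-(2 * N : ℤ)) (2 * N), wt N m * ∑ k : ZMod A, G m k =
      c4 * ∑ q ∈ Q, ∑ m ∈ Icc (-(2 * N : ℤ)) (2 * N), wt N m * ∑ k : ZMod A,
        chi A q (k - (m : ZMod A) ^ 2) * chi A q (k - (m : ZMod A) ^ 2) *
          ‖ft A (fm A f m) k‖ ^ 2
      + c4 * ∑ p ∈ Q.offDiag, ∑ m ∈ Icc (-(2 * N : ℤ)) (2 * N), wt N m * ∑ k : ZMod A,
        chi A p.1 (k - (m : ZMod A) ^ 2) * chi A p.2 (k - (m : ZMod A) ^ 2) *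
          ‖ft A (fm A f m) k‖ ^ 2 := by
    rw [← mul_add]
    have h4 : ∑ q ∈ Q, ∑ m ∈ Icc (-(2 * N : ℤ)) (2 * N), wt N m * ∑ k : ZMod A,
        chi A q (k - (m : ZMod A) ^ 2) * chi A q (k - (m : ZMod A) ^ 2) *
          ‖ft A (fm A f m) k‖ ^ 2 =
        ∑ p ∈ Q.diag, ∑ m ∈ Icc (-(2 * N : ℤ)) (2 * N), wt N m * ∑ k : ZMod A,
        chi A p.1 (k - (m : ZMod A) ^ 2) * chi A p.2 (k - (m : ZMod A) ^ 2) *
          ‖ft A (fm A f m) k‖ ^ 2 := by
      rw [sum_diag]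
    rw [h4, ← sum_union (disjoint_diag_offDiag Q), diag_union_offDiag]
    rw [sum_comm, mul_sum]
    refine sum_congr rfl fun m _ => ?_
    rw [← mul_sum, mul_left_comm]
    congr 1
    rw [sum_comm, mul_sum]
    refine sum_congr rfl fun k _ => ?_
    rw [hG]
    simp only
    rw [← sum_mul, sq (∑ q ∈ Q, chi A q (k - (m : ZMod A) ^ 2)), sum_mul_sum, sum_product, mul_assoc]
  -- step 4: diagonal
  have h4 : ∑ q ∈ Q, ∑ m ∈ Icc (-(2 * N : ℤ)) (2 * N), wt N m * ∑ k : ZMod A,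
        chi A q (k - (m : ZMod A) ^ 2) * chi A q (k - (m : ZMod A) ^ 2) *
          ‖ft A (fm A f m) k‖ ^ 2 ≤
      Q.card * ∑ m ∈ Icc (-(2 * N : ℤ)) (2 * N), wt N m * ((A : ℝ)⁻¹ * ∑ z, ‖fm A f m z‖ ^ 2) := by
    rw [← nsmul_eq_mul]
    apply sum_le_card_nsmul
    intro q _
    refine sum_le_sum fun m _ => mul_le_mul_of_nonneg_left ?_ (wt_nonneg N m)
    rw [← parseval]
    refine sum_le_sum fun k _ => ?_
    calc chi A q (k - (m : ZMod A) ^ 2) * chi A q (k - (m : ZMod A) ^ 2) *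
          ‖ft A (fm A f m) k‖ ^ 2 ≤ 1 * ‖ft A (fm A f m) k‖ ^ 2 :=
          mul_le_mul_of_nonneg_right (chi_sq_le A q _) (sq_nonneg _)
      _ = _ := one_mul _
  -- step 5: off diagonal
  have h5 : ∑ p ∈ Q.offDiag, ∑ m ∈ Icc (-(2 * N : ℤ)) (2 * N), wt N m * ∑ k : ZMod A,
        chi A p.1 (k - (m : ZMod A) ^ 2) * chi A p.2 (k - (m : ZMod A) ^ 2) *
          ‖ft A (fm A f m) k‖ ^ 2 ≤
      ∑ p ∈ Q.offDiag, ((p.1 : ℝ) * p.2)⁻¹ *
        ∑ a ∈ range p.1, ∑ a' ∈ range p.2, (A : ℝ)⁻¹ * ∑ z : ZMod A, (A : ℝ)⁻¹ ^ 2 *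
          ∑ y : ZMod A, ∑ y' : ZMod A, ‖f z y‖ * ‖f (z + sh A p.1 p.2 a a') y'‖ *
            Th A N (p.1 * p.2) (y' - y) := by
    refine sum_le_sum fun p hp => ?_
    rw [mem_offDiag] at hp
    exact pair_bound A N p.1 p.2 hN (hQ _ hp.1).1 (hQ _ hp.1).2.1 (hQ _ hp.1).2.2
      (hQ _ hp.2.1).1 (hQ _ hp.2.1).2.1 (hQ _ hp.2.1).2.2 hp.2.2 f
  have h6 : c4 * (Q.card * ∑ m ∈ Icc (-(2 * N : ℤ)) (2 * N),
      wt N m * ((A : ℝ)⁻¹ * ∑ z, ‖fm A f m z‖ ^ 2)) = 4 / Q.card *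
      ∑ m ∈ Icc (-(2 * N : ℤ)) (2 * N), wt N m * ((A : ℝ)⁻¹ * ∑ z, ‖fm A f m z‖ ^ 2) := by
    rw [← mul_assoc]
    congr 1
    rw [hc4]
    field_simp
  calc En A I N f ≤ _ := h1
    _ ≤ _ := h2
    _ = _ := h3
    _ ≤ _ := add_le_add (mul_le_mul_of_nonneg_left h4 hc4p) (mul_le_mul_of_nonneg_left h5 hc4p)
    _ = _ := by rw [h6]

theorem sum_wt_eq (N : ℕ) (hN : 1 ≤ N) : ∑ m ∈ Icc (-(2 * N : ℤ)) (2 * N), wt N m = 4 * N := by
  have h := sum_wt N hN (fun _ => 1)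
  have hN' : (N : ℂ) ≠ 0 := by
    exact_mod_cast (by omega : N ≠ 0)
  have h2 : ((∑ m ∈ Icc (-(2 * N : ℤ)) (2 * N), wt N m : ℝ) : ℂ) = ((4 * N : ℝ) : ℂ) := by
    push_cast
    simp only [mul_one] at h
    rw [h]
    simp only [sum_const, card_range, nsmul_eq_mul]
    push_cast
    field_simp
    ring
  exact_mod_cast h2

/-- The sieve inequality for functions on a graph. -/
theorem sieve_graph (A N : ℕ) [NeZero A] (hN : 1 ≤ N) (I : Finset ℕ)
    (hI : ∀ n ∈ I, 1 ≤ n ∧ n ^ 2 < A)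
    (Q : Finset ℕ) (hQ : ∀ q ∈ Q, q.Prime ∧ q ≠ 2 ∧ q ∣ A) (hQ0 : Q.Nonempty)
    (hQI : ∀ n ∈ I, 2 * (Q.filter fun q => q ∣ n).card ≤ Q.card)
    (x : ZMod A → ZMod A) (h : ZMod A → ℂ) :
    Eg A I N x h ≤ 16 * N / Q.card * ((A : ℝ)⁻¹ * ∑ z, ‖h z‖ ^ 2)
      + 4 / (Q.card : ℝ) ^ 2 * ∑ p ∈ Q.offDiag, ((p.1 : ℝ) * p.2)⁻¹ *
        ∑ a ∈ range p.1, ∑ a' ∈ range p.2, (A : ℝ)⁻¹ * ∑ z : ZMod A,
          ‖h z‖ * ‖h (z + sh A p.1 p.2 a a')‖ *
            Th A N (p.1 * p.2) (x (z + sh A p.1 p.2 a a') - x z) := by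
  classical
  have hA : (A : ℂ) ≠ 0 := Nat.cast_ne_zero.mpr (NeZero.ne A)
  have hAR : (A : ℝ) ≠ 0 := Nat.cast_ne_zero.mpr (NeZero.ne A)
  set f : ZMod A → ZMod A → ℂ := fun z y => if y = x z then (A : ℂ) * h z else 0 with hf
  have hfm : ∀ (m : ℤ) (z : ZMod A), fm A f m z = h z * ps A ((m : ZMod A) * x z) := by
    intro m z
    unfold fm
    rw [hf]
    simp only [ite_mul, zero_mul, sum_ite_eq', mem_univ, if_true]
    field_simp
  have hnf : ∀ z y, ‖f z y‖ = if y = x z then (A : ℝ) * ‖h z‖ else 0 := by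
    intro z y
    rw [hf]
    simp only
    split_ifs
    · rw [norm_mul, Complex.norm_natCast]
    · exact norm_zero
  have h0 := sieve A N hN I hI Q hQ hQ0 hQI f
  have h1 : En A I N f = Eg A I N x h := by
    unfold En Eg
    refine sum_congr rfl fun n _ => sum_congr rfl fun m _ => ?_
    unfold ft
    congr 3
    refine sum_congr rfl fun z _ => ?_
    rw [hfm, mul_assoc, ← ps_add, Int.cast_natCast, add_comm]
  have h2 : ∑ m ∈ Icc (-(2 * N : ℤ)) (2 * N), wt N m * ((A : ℝ)⁻¹ * ∑ z, ‖fm A f m z‖ ^ 2) =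
      4 * N * ((A : ℝ)⁻¹ * ∑ z, ‖h z‖ ^ 2) := by
    rw [← sum_wt_eq N hN, sum_mul]
    refine sum_congr rfl fun m _ => ?_
    congr 2
    refine sum_congr rfl fun z _ => ?_
    rw [hfm, norm_mul, norm_ps, mul_one]
  have h3 : ∀ (d : ℕ) (s z : ZMod A), (A : ℝ)⁻¹ ^ 2 *
      ∑ y : ZMod A, ∑ y' : ZMod A, ‖f z y‖ * ‖f (z + s) y'‖ * Th A N d (y' - y) =
      ‖h z‖ * ‖h (z + s)‖ * Th A N d (x (z + s) - x z) := by
    intro d s z
    simp only [hnf]
    simp only [mul_ite, ite_mul, zero_mul, mul_zero, sum_ite_eq', mem_univ, if_true]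
    field_simp
  rw [h1, h2] at h0
  simp only [h3] at h0
  refine h0.trans (le_of_eq ?_)
  congr 1
  ring

end Stz
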