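import Pool.Agent.Helper35.Stz.Theta

/-!
# Expansions with Gauss sums
-/

set_option autoImplicit false

namespace Stz

open Finset

open scoped ComplexConjugate

section field

variable (q : ℕ) [Fact q.Prime]

/-- the quadratic character with complex values -/
noncomputable def chiC : MulChar (ZMod q) ℂ :=
  (quadraticChar (ZMod q)).ringHomComp (Int.castRingHom ℂ)

theorem chiC_apply (l : ZMod q) : chiC q l = ((quadraticChar (ZMod q) l : ℤ) : ℂ) := rfl

theorem norm_gaussSum_chiC (hq : q ≠ 2) (a : ZMod q) (ha : a ≠ 0) :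
    ‖∑ l : ZMod q, chiC q l * ps q (a * l)‖ = Real.sqrt q := by
  have hinj : Function.Injective (Int.castRingHom ℂ) := Int.cast_injective
  have h1 : chiC q ≠ 1 := by
    unfold chiC
    rw [Ne, MulChar.ringHomComp_eq_one_iff hinj]
    apply quadraticChar_ne_one
    rw [ZMod.ringChar_zmod_n]
    exact hq
  have h2 : (chiC q).IsQuadratic := (quadraticChar_isQuadratic (ZMod q)).comp _
  have h3 := gaussSum_sq h1 h2 (ZMod.isPrimitive_stdAddChar q)
  have h4 := gaussSum_mulShift (chiC q) (ZMod.stdAddChar) (Units.mk0 a ha)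
  have hn : ∀ b : ZMod q, b ≠ 0 → ‖chiC q b‖ = 1 := by
    intro b hb
    rw [chiC_apply]
    rcases quadraticChar_dichotomy hb with h | h <;> rw [h] <;> simp
  have h5 : ‖gaussSum (chiC q) (ZMod.stdAddChar)‖ ^ 2 = q := by
    rw [← norm_pow, h3, norm_mul, ZMod.card, hn _ (neg_ne_zero.mpr one_ne_zero), one_mul,
      Complex.norm_natCast]
  have h6 : ‖gaussSum (chiC q) (ZMod.stdAddChar.mulShift a)‖ ^ 2 = q := by
    rw [← h5, ← h4, norm_mul]
    have : ‖chiC q (Units.mk0 a ha : (ZMod q)ˣ)‖ = 1 := hn a ha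
    rw [this, one_mul]
    rfl
  have h7 : ∑ l : ZMod q, chiC q l * ps q (a * l) =
      gaussSum (chiC q) (ZMod.stdAddChar.mulShift a) := rfl
  rw [h7, ← h6, Real.sqrt_sq (norm_nonneg _)]

theorem sum_chiC (hq : q ≠ 2) : ∑ l : ZMod q, chiC q l = 0 := by
  have hinj : Function.Injective (Int.castRingHom ℂ) := Int.cast_injective
  apply MulChar.sum_eq_zero_of_ne_one
  unfold chiC
  rw [Ne, MulChar.ringHomComp_eq_one_iff hinj]
  apply quadraticChar_ne_one
  rw [ZMod.ringChar_zmod_n]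
  exact hq

/-- Fourier inversion on `ZMod q` -/
theorem inversion (φ : ZMod q → ℂ) (l : ZMod q) :
    ∑ a : ZMod q, ((q : ℂ)⁻¹ * ∑ r, φ r * ps q (-a * r)) * ps q (a * l) = φ l := by
  have hq0 : (q : ℂ) ≠ 0 := Nat.cast_ne_zero.mpr (Fact.out : q.Prime).ne_zero
  calc ∑ a : ZMod q, ((q : ℂ)⁻¹ * ∑ r, φ r * ps q (-a * r)) * ps q (a * l)
      = ∑ a : ZMod q, ∑ r, (q : ℂ)⁻¹ * φ r * ps q (a * (l - r)) := by
        refine sum_congr rfl fun a _ => ?_
        rw [mul_sum, sum_mul]
        refine sum_congr rfl fun r _ => ?_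
        have h : a * (l - r) = -a * r + a * l := by ring
        rw [h, ps_add]
        ring
    _ = ∑ r, (q : ℂ)⁻¹ * φ r * ∑ a : ZMod q, ps q (a * (l - r)) := by
        rw [sum_comm]
        refine sum_congr rfl fun r _ => ?_
        rw [mul_sum]
    _ = φ l := by
        rw [sum_eq_single l]
        · rw [sum_ps, sub_self, if_pos rfl]
          field_simp
        · intro r _ hr
          rw [sum_ps, if_neg (sub_ne_zero.mpr hr.symm), mul_zero]
        · intro h
          exact absurd (mem_univ _) h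

theorem norm_sq_sum (hq : q ≠ 2) (a b : ZMod q) (ha : a ≠ 0) :
    ‖∑ r : ZMod q, ps q (a * r ^ 2) * ps q (b * r)‖ = Real.sqrt q := by
  have h2 : (2 : ZMod q) ≠ 0 := by
    intro h
    have h3 : ((2 : ℕ) : ZMod q) = 0 := by exact_mod_cast h
    rw [ZMod.natCast_eq_zero_iff] at h3
    exact hq ((Nat.prime_dvd_prime_iff_eq (Fact.out : q.Prime) Nat.prime_two).mp h3)
  set S := ∑ r : ZMod q, ps q (a * r ^ 2) * ps q (b * r) with hS
  have key : ((‖S‖ ^ 2 : ℝ) : ℂ) = q := by
    rw [sq_norm_eq, hS, map_sum, sum_mul_sum, sum_comm]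
    calc ∑ j : ZMod q, ∑ i : ZMod q, ps q (a * i ^ 2) * ps q (b * i) *
          conj (ps q (a * j ^ 2) * ps q (b * j))
        = ∑ j : ZMod q, ∑ h : ZMod q, ps q (a * h ^ 2 + b * h) * ps q (j * (2 * a * h)) := by
          refine sum_congr rfl fun j _ => ?_
          rw [← Equiv.sum_comp (Equiv.addRight j)]
          refine sum_congr rfl fun h _ => ?_
          rw [map_mul, ← ps_neg, ← ps_neg, ← ps_add, ← ps_add, ← ps_add, ← ps_add]
          congr 1
          simp only [Equiv.coe_addRight]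
          ring
      _ = ∑ h : ZMod q, ps q (a * h ^ 2 + b * h) * ∑ j : ZMod q, ps q (j * (2 * a * h)) := by
          rw [sum_comm]
          refine sum_congr rfl fun h _ => ?_
          rw [mul_sum]
      _ = q := by
          rw [sum_eq_single 0]
          · rw [sum_ps, if_pos (by ring)]
            have : a * (0 : ZMod q) ^ 2 + b * 0 = 0 := by ring
            rw [this, ps_zero, one_mul]
          · intro h _ hh
            rw [sum_ps, if_neg (mul_ne_zero (mul_ne_zero h2 ha) hh), mul_zero]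
          · intro h
            exact absurd (mem_univ _) h
  have h3 : ‖S‖ ^ 2 = q := by exact_mod_cast key
  rw [← h3, Real.sqrt_sq (norm_nonneg _)]

end field

/-- the value of the quadratic character modulo `q`, as a real number -/
noncomputable def chi (A q : ℕ) (k : ZMod A) : ℝ :=
  if h : q.Prime then ((@quadraticChar (ZMod q) (@ZMod.instField q ⟨h⟩)
    (@ZMod.fintype q ⟨h.ne_zero⟩) _ (k.cast : ZMod q) : ℤ) : ℝ)
  else 0

theorem inv_mul_sqrt (q : ℕ) : (q : ℝ)⁻¹ * Real.sqrt q = (Real.sqrt q)⁻¹ := by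
  rcases Nat.eq_zero_or_pos q with h | h
  · subst h
    simp
  · have hq : (0 : ℝ) < q := by exact_mod_cast h
    have h1 : Real.sqrt q * Real.sqrt q = q := Real.mul_self_sqrt hq.le
    have h2 : (0 : ℝ) < Real.sqrt q := Real.sqrt_pos.mpr hq
    rw [inv_mul_eq_div, div_eq_iff hq.ne', inv_mul_eq_div, eq_div_iff h2.ne', h1]

theorem ps_cast (A q : ℕ) [NeZero A] [NeZero q] (hq : q ∣ A) (b : ℕ) (k : ZMod A) :
    ps A (((b * (A / q) : ℕ) : ZMod A) * k) = ps q ((b : ZMod q) * (k.cast : ZMod q)) := by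
  have h := ps_div A q hq (b * k.val)
  have h1 : ((k.val : ℕ) : ZMod A) = k := ZMod.natCast_zmod_val k
  have h2 : ((k.val : ℕ) : ZMod q) = (k.cast : ZMod q) := by
    rw [ZMod.natCast_val]
  push_cast at h ⊢
  rw [h1, h2] at h
  rw [← h]
  congr 1
  ring

/-- Expansion of the quadratic character. -/
theorem chi_expand (A q : ℕ) [NeZero A] (hq : q.Prime) (hq2 : q ≠ 2) (hqA : q ∣ A) :
    ∃ c : ℕ → ℂ, (∀ a, q ∣ a → c a = 0) ∧ (∀ a, ‖c a‖ ≤ (Real.sqrt q)⁻¹) ∧
      ∀ k : ZMod A, (chi A q k : ℂ) =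
        ∑ a ∈ range q, c a * ps A (((a * (A / q) : ℕ) : ZMod A) * k) := by
  have : Fact q.Prime := ⟨hq⟩
  have hz : ((q : ℂ)⁻¹ * ∑ r, chiC q r * ps q (-(0 : ZMod q) * r)) = 0 := by
    have h1 : ∀ r : ZMod q, chiC q r * ps q (-(0 : ZMod q) * r) = chiC q r := by
      intro r
      rw [neg_zero, zero_mul, ps_zero, mul_one]
    simp only [h1, sum_chiC q hq2, mul_zero]
  refine ⟨fun a => (q : ℂ)⁻¹ * ∑ r, chiC q r * ps q (-(a : ZMod q) * r), ?_, ?_, ?_⟩
  · intro a ha
    have h : (a : ZMod q) = 0 := (ZMod.natCast_eq_zero_iff a q).mpr ha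
    simp only [h]
    exact hz
  · intro a
    by_cases h : (a : ZMod q) = 0
    · simp only [h]
      rw [hz, norm_zero]
      positivity
    · simp only
      rw [norm_mul, norm_gaussSum_chiC q hq2 _ (neg_ne_zero.mpr h), norm_inv,
        Complex.norm_natCast, inv_mul_sqrt]
  · intro k
    have h1 := inversion q (fun r => chiC q r) (k.cast : ZMod q)
    rw [← sum_range_zmod q] at h1
    have h2 : (chi A q k : ℂ) = chiC q (k.cast : ZMod q) := by
      unfold chi
      rw [dif_pos hq, chiC_apply]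
      push_cast
      rfl
    rw [h2, ← h1]
    refine sum_congr rfl fun a _ => ?_
    rw [ps_cast A q hqA]

/-- Expansion of `e(a m² / q)`. -/
theorem sq_expand (A q : ℕ) [NeZero A] (hq : q.Prime) (hq2 : q ≠ 2) (hqA : q ∣ A) (a : ℕ)
    (ha : ¬ q ∣ a) :
    ∃ γ : ℕ → ℂ, (∀ b, ‖γ b‖ ≤ (Real.sqrt q)⁻¹) ∧
      ∀ m : ℤ, ps A (-(((a * (A / q) : ℕ) : ZMod A) * (m : ZMod A) ^ 2)) =
        ∑ b ∈ range q, γ b * ps A ((m : ZMod A) * ((b * (A / q) : ℕ) : ZMod A)) := by
  have : Fact q.Prime := ⟨hq⟩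
  have ha' : (a : ZMod q) ≠ 0 := fun h => ha ((ZMod.natCast_eq_zero_iff a q).mp h)
  refine ⟨fun b => (q : ℂ)⁻¹ * ∑ r, ps q (-(a : ZMod q) * r ^ 2) * ps q (-(b : ZMod q) * r), ?_, ?_⟩
  · intro b
    simp only
    rw [norm_mul, norm_sq_sum q hq2 _ _ (neg_ne_zero.mpr ha'), norm_inv,
      Complex.norm_natCast, inv_mul_sqrt]
  · intro m
    have h1 := inversion q (fun r => ps q (-(a : ZMod q) * r ^ 2)) (m : ZMod q)
    rw [← sum_range_zmod q] at h1
    have hcast : ∀ j : ℤ, (((j : ZMod A)).cast : ZMod q) = (j : ZMod q) := by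
      intro j
      exact ZMod.cast_intCast hqA j
    have h2 : ps A (-(((a * (A / q) : ℕ) : ZMod A) * (m : ZMod A) ^ 2)) =
        ps q (-(a : ZMod q) * (m : ZMod q) ^ 2) := by
      have h3 := ps_cast A q hqA a ((-(m ^ 2) : ℤ) : ZMod A)
      rw [hcast] at h3
      push_cast at h3 ⊢
      rw [← mul_neg, h3]
      congr 1
      ring
    rw [h2, ← h1]
    refine sum_congr rfl fun b _ => ?_
    congr 1
    have h4 := ps_cast A q hqA b (m : ZMod A)
    rw [hcast] at h4
    rw [← h4, mul_comm]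

end Stz
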