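import Pool.Agent.Helper65.Stz.Basic

/-!
# The Fejer type kernel `Th`
-/

set_option autoImplicit false

namespace Stz

open Finset

open scoped ComplexConjugate

/-- symmetric sums -/
theorem sum_sym {M : Type*} [AddCommMonoid M] (K : ℕ) (G : ℤ → M) :
    ∑ m ∈ Icc (-(K : ℤ)) K, G m =
      G 0 + ∑ j ∈ range K, (G ((j : ℤ) + 1) + G (-((j : ℤ) + 1))) := by
  induction K with
  | zero => simp
  | succ K ih =>
    have h1 : Icc (-((K + 1 : ℕ) : ℤ)) ((K + 1 : ℕ) : ℤ) =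
        insert ((K : ℤ) + 1) (insert (-((K : ℤ) + 1)) (Icc (-(K : ℤ)) K)) := by
      ext x
      simp only [mem_insert, mem_Icc]
      push_cast
      omega
    rw [h1, sum_insert, sum_insert, ih, sum_range_succ]
    · abel
    · simp only [mem_Icc]
      omega
    · simp only [mem_insert, mem_Icc]
      omega

/-- sums over differences -/
theorem sum_diff (K : ℕ) (G : ℤ → ℂ) :
    ∑ i ∈ range K, ∑ j ∈ range K, G ((i : ℤ) - j) =
      K * G 0 + ∑ j ∈ range K, ((K : ℂ) - (j + 1)) * (G ((j : ℤ) + 1) + G (-((j : ℤ) + 1))) := by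
  induction K with
  | zero => simp
  | succ K ih =>
    have h1 : ∑ i ∈ range (K + 1), ∑ j ∈ range (K + 1), G ((i : ℤ) - j) =
        (∑ i ∈ range K, ∑ j ∈ range K, G ((i : ℤ) - j)) + (∑ i ∈ range K, G ((i : ℤ) - K)) +
          (∑ j ∈ range K, G ((K : ℤ) - j)) + G 0 := by
      rw [sum_range_succ]
      simp only [sum_range_succ, sum_add_distrib, sub_self]
      ring
    have h2 : ∑ i ∈ range K, G ((i : ℤ) - K) = ∑ j ∈ range K, G (-((j : ℤ) + 1)) := by
      rw [← sum_range_reflect]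
      refine sum_congr rfl fun j hj => ?_
      have := mem_range.mp hj
      congr 1
      omega
    have h3 : ∑ j ∈ range K, G ((K : ℤ) - j) = ∑ j ∈ range K, G ((j : ℤ) + 1) := by
      rw [← sum_range_reflect]
      refine sum_congr rfl fun j hj => ?_
      have := mem_range.mp hj
      congr 1
      omega
    rw [h1, ih, h2, h3, sum_range_succ]
    have h4 : ∑ j ∈ range K, (((K + 1 : ℕ) : ℂ) - (j + 1)) *
        (G ((j : ℤ) + 1) + G (-((j : ℤ) + 1))) =
        (∑ j ∈ range K, ((K : ℂ) - (j + 1)) * (G ((j : ℤ) + 1) + G (-((j : ℤ) + 1)))) +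
          ∑ j ∈ range K, (G ((j : ℤ) + 1) + G (-((j : ℤ) + 1))) := by
      rw [← sum_add_distrib]
      refine sum_congr rfl fun j _ => ?_
      push_cast
      ring
    rw [h4, sum_add_distrib]
    push_cast
    ring

theorem wt_of_abs_le (N : ℕ) (hN : 1 ≤ N) (m : ℤ) (h : |m| ≤ 2 * N) :
    wt N m = (N : ℝ)⁻¹ * (2 * N - |(m : ℝ)|) := by
  have hN' : (0 : ℝ) < N := by exact_mod_cast hN
  have h' : |(m : ℝ)| ≤ 2 * N := by
    have : ((|m| : ℤ) : ℝ) ≤ ((2 * N : ℤ) : ℝ) := by exact_mod_cast h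
    push_cast at this
    exact this
  unfold wt
  have h1 : 2 - |(m : ℝ)| / N = (N : ℝ)⁻¹ * (2 * N - |(m : ℝ)|) := by
    field_simp
  rw [h1, max_eq_right]
  exact mul_nonneg (by positivity) (by linarith)

theorem wt_nonneg (N : ℕ) (m : ℤ) : 0 ≤ wt N m := le_max_left _ _

theorem wt_of_le_abs (N : ℕ) (hN : 1 ≤ N) (m : ℤ) (h : 2 * N ≤ |m|) : wt N m = 0 := by
  have hN' : (0 : ℝ) < N := by exact_mod_cast hN
  have h' : 2 * (N : ℝ) ≤ |(m : ℝ)| := by
    have : ((2 * N : ℤ) : ℝ) ≤ ((|m| : ℤ) : ℝ) := by exact_mod_cast h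
    push_cast at this
    exact this
  unfold wt
  rw [max_eq_left]
  rw [sub_nonpos, le_div_iff₀ hN']
  exact h'

theorem wt_neg (N : ℕ) (m : ℤ) : wt N (-m) = wt N m := by
  unfold wt
  rw [Int.cast_neg, abs_neg]

theorem wt_zero (N : ℕ) : wt N 0 = 2 := by
  unfold wt
  simp

theorem one_le_wt (N : ℕ) (hN : 1 ≤ N) (m : ℕ) (hm : m < N) : 1 ≤ wt N m := by
  have hN' : (0 : ℝ) < N := by exact_mod_cast hN
  have hm' : (m : ℝ) ≤ N := by exact_mod_cast hm.le
  unfold wt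
  apply le_max_of_le_right
  rw [Int.cast_natCast, abs_of_nonneg (Nat.cast_nonneg m)]
  have : (m : ℝ) / N ≤ 1 := by
    rw [div_le_one hN']
    exact hm'
  linarith

/-- The Fejer identity. -/
theorem sum_wt (N : ℕ) (hN : 1 ≤ N) (G : ℤ → ℂ) :
    ∑ m ∈ Icc (-(2 * N : ℤ)) (2 * N), (wt N m : ℂ) * G m =
      (N : ℂ)⁻¹ * ∑ i ∈ range (2 * N), ∑ j ∈ range (2 * N), G ((i : ℤ) - j) := by
  have h0 : ∀ m ∈ Icc (-(2 * N : ℤ)) (2 * N), (wt N m : ℂ) * G m =
      (N : ℂ)⁻¹ * ((2 * (N : ℂ) - (|(m : ℝ)| : ℝ)) * G m) := by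
    intro m hm
    rw [mem_Icc] at hm
    rw [wt_of_abs_le N hN m (abs_le.mpr hm)]
    push_cast
    ring
  have hK : Icc (-(2 * N : ℤ)) (2 * N) = Icc (-((2 * N : ℕ) : ℤ)) ((2 * N : ℕ) : ℤ) := by
    push_cast
    rfl
  rw [sum_congr rfl h0, ← mul_sum]
  congr 1
  rw [hK, sum_sym, sum_diff]
  congr 1
  · simp
  · refine sum_congr rfl fun j _ => ?_
    have h1 : |(((j : ℤ) + 1 : ℤ) : ℝ)| = (j : ℝ) + 1 := by
      push_cast
      exact abs_of_nonneg (by positivity)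
    have h2 : |((-((j : ℤ) + 1) : ℤ) : ℝ)| = (j : ℝ) + 1 := by
      rw [Int.cast_neg, abs_neg, h1]
    rw [h1, h2]
    push_cast
    ring

/-- The Fejer kernel. -/
noncomputable def fej (A : ℕ) [NeZero A] (N : ℕ) (u : ZMod A) : ℝ :=
  (N : ℝ)⁻¹ * ‖∑ i ∈ range (2 * N), ps A ((i : ZMod A) * u)‖ ^ 2

theorem fej_nonneg (A : ℕ) [NeZero A] (N : ℕ) (u : ZMod A) : 0 ≤ fej A N u := by
  unfold fej
  positivity

theorem fej_eq (A : ℕ) [NeZero A] (N : ℕ) (hN : 1 ≤ N) (u : ZMod A) :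
    ∑ m ∈ Icc (-(2 * N : ℤ)) (2 * N), (wt N m : ℂ) * ps A ((m : ZMod A) * u) =
      (fej A N u : ℂ) := by
  rw [sum_wt N hN (fun m => ps A ((m : ZMod A) * u))]
  unfold fej
  rw [Complex.ofReal_mul, sq_norm_eq, map_sum, sum_mul_sum, Complex.ofReal_inv,
    Complex.ofReal_natCast]
  congr 1
  refine sum_congr rfl fun i _ => sum_congr rfl fun j _ => ?_
  rw [ps_mul_conj]
  congr 1
  push_cast
  ring

theorem fej_re (A : ℕ) [NeZero A] (N : ℕ) (hN : 1 ≤ N) (u : ZMod A) :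
    ∑ m ∈ Icc (-(2 * N : ℤ)) (2 * N), wt N m * (ps A ((m : ZMod A) * u)).re = fej A N u := by
  have h := congrArg Complex.re (fej_eq A N hN u)
  rw [Complex.re_sum, Complex.ofReal_re] at h
  rw [← h]
  refine sum_congr rfl fun m _ => ?_
  rw [Complex.re_ofReal_mul]

/-! ### transfer between moduli -/

theorem ps_int (A : ℕ) [NeZero A] (k : ℤ) :
    ps A (k : ZMod A) = Complex.exp (2 * Real.pi * Complex.I * k / A) :=
  ZMod.stdAddChar_coe k

theorem ps_div (A d : ℕ) [NeZero A] [NeZero d] (hd : d ∣ A) (k : ℤ) :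
    ps A ((k : ZMod A) * ((A / d : ℕ) : ZMod A)) = ps d (k : ZMod d) := by
  obtain ⟨e, rfl⟩ := hd
  have hd0 : d ≠ 0 := NeZero.ne d
  have he0 : e ≠ 0 := by
    rintro rfl
    exact NeZero.ne (d * 0) (mul_zero d)
  have h1 : d * e / d = e := Nat.mul_div_cancel_left e (Nat.pos_of_ne_zero hd0)
  have h2 : ((k : ZMod (d * e)) * ((d * e / d : ℕ) : ZMod (d * e))) =
      (((k * e : ℤ)) : ZMod (d * e)) := by
    rw [h1]
    push_cast
    rfl
  rw [h2, ps_int, ps_int]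
  congr 1
  have hdC : (d : ℂ) ≠ 0 := Nat.cast_ne_zero.mpr hd0
  have heC : (e : ℂ) ≠ 0 := Nat.cast_ne_zero.mpr he0
  push_cast
  field_simp

theorem sum_range_zmod {M : Type*} [AddCommMonoid M] (q : ℕ) [NeZero q] (φ : ZMod q → M) :
    ∑ b ∈ range q, φ (b : ZMod q) = ∑ x : ZMod q, φ x := by
  refine sum_nbij' (fun b => (b : ZMod q)) (fun x => x.val) ?_ ?_ ?_ ?_ ?_
  · intro b _
    exact mem_univ _
  · intro x _
    exact mem_range.mpr (ZMod.val_lt x)
  · intro b hb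
    exact ZMod.val_cast_of_lt (mem_range.mp hb)
  · intro x _
    exact ZMod.natCast_zmod_val x
  · intro b _
    rfl

/-- `∑_b e(m b / d) = d 1_{d | m}` -/
theorem sum_ps_div (A d : ℕ) [NeZero A] (hd1 : 1 ≤ d) (hd : d ∣ A) (m : ℤ) :
    ∑ b ∈ range d, ps A ((m : ZMod A) * ((b * (A / d) : ℕ) : ZMod A)) =
      if (d : ℤ) ∣ m then (d : ℂ) else 0 := by
  have : NeZero d := ⟨by omega⟩
  have h1 : ∀ b ∈ range d, ps A ((m : ZMod A) * ((b * (A / d) : ℕ) : ZMod A)) =
      ps d ((b : ZMod d) * (m : ZMod d)) := by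
    intro b _
    have h := ps_div A d hd (m * b)
    push_cast at h ⊢
    rw [← mul_assoc, h, mul_comm (b : ZMod d)]
  rw [sum_congr rfl h1, sum_range_zmod d (fun x : ZMod d => ps d (x * (m : ZMod d))), sum_ps]
  simp only [ZMod.intCast_zmod_eq_zero_iff_dvd]

/-- `Th` as a sum over the multiples of `d`. -/
theorem Th_eq (A N d : ℕ) [NeZero A] (hd : 1 ≤ d) (hN : 1 ≤ N) (u : ZMod A) :
    Th A N d u = ∑ m ∈ Icc (-(2 * N : ℤ)) (2 * N),
      wt N m * ((if (d : ℤ) ∣ m then (d : ℝ) else 0) * (ps A ((m : ZMod A) * u)).re) := by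
  classical
  have hd0 : (1 : ℤ) ≤ d := by exact_mod_cast hd
  unfold Th
  have h1 : ∑ m ∈ Icc (-(2 * N : ℤ)) (2 * N),
      wt N m * ((if (d : ℤ) ∣ m then (d : ℝ) else 0) * (ps A ((m : ZMod A) * u)).re) =
      ∑ m ∈ (Icc (-(2 * N : ℤ)) (2 * N)).filter (fun m => (d : ℤ) ∣ m),
        wt N m * ((d : ℝ) * (ps A ((m : ZMod A) * u)).re) := by
    rw [sum_filter]
    refine sum_congr rfl fun m _ => ?_
    split_ifs <;> simp
  have h2 : ∑ j ∈ Icc (-(2 * N : ℤ)) (2 * N),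
      wt N (d * j) * (ps A (((d * j : ℤ) : ZMod A) * u)).re =
      ∑ j ∈ (Icc (-(2 * N : ℤ)) (2 * N)).filter (fun j => |(d : ℤ) * j| ≤ 2 * N),
        wt N (d * j) * (ps A (((d * j : ℤ) : ZMod A) * u)).re := by
    symm
    apply sum_filter_of_ne
    intro j _ hne
    by_contra hcon
    rw [not_le] at hcon
    exact hne (by rw [wt_of_le_abs N hN _ hcon.le, zero_mul])
  rw [h1, h2, mul_sum]
  refine sum_bij (fun j _ => (d : ℤ) * j) ?_ ?_ ?_ ?_
  · intro j hj
    rw [mem_filter, mem_Icc] at hj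
    rw [mem_filter, mem_Icc]
    exact ⟨abs_le.mp hj.2, dvd_mul_right _ _⟩
  · intro j _ j' _ h
    exact mul_left_cancel₀ (by omega) h
  · intro m hm
    rw [mem_filter, mem_Icc] at hm
    obtain ⟨⟨hm1, hm2⟩, j, rfl⟩ := hm
    refine ⟨j, ?_, rfl⟩
    rw [mem_filter, mem_Icc]
    have habs : |(d : ℤ) * j| ≤ 2 * N := abs_le.mpr ⟨hm1, hm2⟩
    refine ⟨?_, habs⟩
    rw [abs_mul, abs_of_nonneg (by omega : (0 : ℤ) ≤ d)] at habs
    have : |j| ≤ 2 * N := by
      have : 1 * |j| ≤ (d : ℤ) * |j| := mul_le_mul_of_nonneg_right hd0 (abs_nonneg j)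
      linarith
    exact abs_le.mp this
  · intro j _
    ring

theorem Th_nonneg (A N d : ℕ) [NeZero A] (hd : 1 ≤ d) (hN : 1 ≤ N) (hdA : d ∣ A) (u : ZMod A) :
    0 ≤ Th A N d u := by
  have h1 : Th A N d u = ∑ b ∈ range d, fej A N (u + ((b * (A / d) : ℕ) : ZMod A)) := by
    rw [Th_eq A N d hd hN u]
    simp only [← fej_re A N hN]
    rw [sum_comm]
    refine sum_congr rfl fun m _ => ?_
    rw [← mul_sum, ← Complex.re_sum]
    congr 1
    have h2 : ∑ b ∈ range d, ps A ((m : ZMod A) * (u + ((b * (A / d) : ℕ) : ZMod A))) =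
        (if (d : ℤ) ∣ m then (d : ℂ) else 0) * ps A ((m : ZMod A) * u) := by
      rw [← sum_ps_div A d hd hdA m, sum_mul]
      refine sum_congr rfl fun b _ => ?_
      rw [mul_add, ps_add, mul_comm]
    rw [h2]
    split_ifs
    · rw [← Complex.ofReal_natCast, Complex.re_ofReal_mul]
    · simp
  rw [h1]
  exact sum_nonneg fun b _ => fej_nonneg _ _ _

/-- evenness of `Th` -/
theorem Th_neg (A N d : ℕ) [NeZero A] (u : ZMod A) : Th A N d (-u) = Th A N d u := by
  unfold Th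
  congr 1
  refine sum_congr rfl fun j _ => ?_
  rw [mul_neg, ps_neg, Complex.conj_re]

theorem Th_big (A N d : ℕ) [NeZero A] (hN : 1 ≤ N) (hd : 2 * N ≤ d) (u : ZMod A) :
    Th A N d u = 2 * d := by
  unfold Th
  rw [sum_eq_single 0]
  · rw [mul_zero, wt_zero]
    simp [ps_zero]
    ring
  · intro j _ hj
    rw [wt_of_le_abs N hN, zero_mul]
    rw [abs_mul]
    have h1 : (1 : ℤ) ≤ |j| := Int.one_le_abs hj
    have h2 : (2 * N : ℤ) ≤ d := by exact_mod_cast hd
    have h3 : |(d : ℤ)| = d := abs_of_nonneg (by omega)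
    rw [h3]
    nlinarith
  · intro h
    exact absurd (mem_Icc.mpr ⟨by omega, by omega⟩) h

/-! ### Size of `Th` -/

/-- the coefficients of `Th` -/
noncomputable def cw (N d : ℕ) (j : ℕ) : ℝ := max 0 (2 - (d : ℝ) * j / N)

theorem wt_eq_cw (N d j : ℕ) : wt N ((d : ℤ) * j) = cw N d j := by
  unfold wt cw
  push_cast
  rw [abs_of_nonneg (by positivity)]

theorem Th_sym (A N d : ℕ) [NeZero A] (u : ZMod A) :
    Th A N d u = d * (2 + 2 * ∑ j ∈ range (2 * N),
      cw N d (j + 1) * (ps A (((j + 1 : ℕ) : ZMod A) * ((d : ZMod A) * u))).re) := by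
  have hK : Icc (-(2 * N : ℤ)) (2 * N) = Icc (-((2 * N : ℕ) : ℤ)) ((2 * N : ℕ) : ℤ) := by
    push_cast
    rfl
  unfold Th
  rw [hK, sum_sym]
  congr 1
  congr 1
  · rw [mul_zero, wt_zero]
    simp [ps_zero]
  · rw [mul_sum]
    refine sum_congr rfl fun j _ => ?_
    have h1 : (d : ℤ) * ((j : ℤ) + 1) = (d : ℤ) * ((j + 1 : ℕ) : ℤ) := by push_cast; rfl
    have h2 : (d : ℤ) * (-((j : ℤ) + 1)) = -((d : ℤ) * ((j + 1 : ℕ) : ℤ)) := by push_cast; ring
    rw [h1, h2, wt_neg, wt_eq_cw]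
    have h3 : (((d : ℤ) * ((j + 1 : ℕ) : ℤ) : ℤ) : ZMod A) * u =
        ((j + 1 : ℕ) : ZMod A) * ((d : ZMod A) * u) := by
      push_cast
      ring
    have h4 : ((-((d : ℤ) * ((j + 1 : ℕ) : ℤ)) : ℤ) : ZMod A) * u =
        -(((j + 1 : ℕ) : ZMod A) * ((d : ZMod A) * u)) := by
      push_cast
      ring
    rw [h3, h4, ps_neg, Complex.conj_re]
    ring

theorem sum_cw (N d : ℕ) (hd : 1 ≤ d) (hN : 1 ≤ N) (K : ℕ) :
    ∑ j ∈ range K, cw N d (j + 1) ≤ 2 * N / d - (N : ℝ) / (2 * d) * cw N d K ^ 2 := by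
  have hN' : (0 : ℝ) < N := by exact_mod_cast hN
  have hd' : (0 : ℝ) < d := by exact_mod_cast hd
  induction K with
  | zero =>
    unfold cw
    simp
    apply le_of_eq
    field_simp
  | succ K ih =>
    rw [sum_range_succ]
    have h0 : 0 ≤ cw N d K := le_max_left _ _
    have key : cw N d (K + 1) ≤ (N : ℝ) / (2 * d) * (cw N d K ^ 2 - cw N d (K + 1) ^ 2) := by
      rcases le_or_gt (2 - (d : ℝ) * (K + 1 : ℕ) / N) 0 with h | h
      · have h1 : cw N d (K + 1) = 0 := max_eq_left h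
        rw [h1]
        have : 0 ≤ (N : ℝ) / (2 * d) * (cw N d K ^ 2) := by positivity
        simpa using this
      · have h1 : cw N d (K + 1) = 2 - (d : ℝ) * (K + 1 : ℕ) / N := max_eq_right h.le
        have h2 : cw N d (K + 1) + d / N ≤ cw N d K := by
          rw [h1]
          unfold cw
          apply le_max_of_le_right
          push_cast
          apply le_of_eq
          ring
        have h3 : 0 ≤ cw N d (K + 1) := le_max_left _ _
        have h4 : (cw N d (K + 1) + d / N) ^ 2 ≤ cw N d K ^ 2 :=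
          pow_le_pow_left₀ (by positivity) h2 2
        have h5 : (2 * d / N : ℝ) * cw N d (K + 1) ≤ cw N d K ^ 2 - cw N d (K + 1) ^ 2 := by
          have : (cw N d (K + 1) + d / N) ^ 2 =
              cw N d (K + 1) ^ 2 + (2 * d / N : ℝ) * cw N d (K + 1) + (d / N : ℝ) ^ 2 := by ring
          have h6 : (0 : ℝ) ≤ (d / N : ℝ) ^ 2 := sq_nonneg _
          linarith
        calc cw N d (K + 1) = (N : ℝ) / (2 * d) * ((2 * d / N : ℝ) * cw N d (K + 1)) := by
              field_simp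
          _ ≤ _ := mul_le_mul_of_nonneg_left h5 (by positivity)
    have h7 : (N : ℝ) / (2 * d) * (cw N d K ^ 2 - cw N d (K + 1) ^ 2) =
        (N : ℝ) / (2 * d) * cw N d K ^ 2 - (N : ℝ) / (2 * d) * cw N d (K + 1) ^ 2 := by ring
    linarith

theorem Th_le (A N d : ℕ) [NeZero A] (hd : 1 ≤ d) (hN : 1 ≤ N) (u : ZMod A) :
    Th A N d u ≤ 2 * d + 4 * N := by
  have hN' : (0 : ℝ) < N := by exact_mod_cast hN
  have hd' : (0 : ℝ) < d := by exact_mod_cast hd
  rw [Th_sym]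
  have h1 : ∑ j ∈ range (2 * N),
      cw N d (j + 1) * (ps A (((j + 1 : ℕ) : ZMod A) * ((d : ZMod A) * u))).re ≤ 2 * N / d := by
    have h2 : ∑ j ∈ range (2 * N),
        cw N d (j + 1) * (ps A (((j + 1 : ℕ) : ZMod A) * ((d : ZMod A) * u))).re ≤
        ∑ j ∈ range (2 * N), cw N d (j + 1) := by
      refine sum_le_sum fun j _ => ?_
      have h3 : (ps A (((j + 1 : ℕ) : ZMod A) * ((d : ZMod A) * u))).re ≤ 1 :=
        (Complex.re_le_norm _).trans (le_of_eq (norm_ps A _))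
      calc _ ≤ cw N d (j + 1) * 1 := mul_le_mul_of_nonneg_left h3 (le_max_left _ _)
        _ = _ := mul_one _
    have h4 := sum_cw N d hd hN (2 * N)
    have h5 : 0 ≤ (N : ℝ) / (2 * d) * cw N d (2 * N) ^ 2 := by positivity
    linarith
  calc (d : ℝ) * (2 + 2 * ∑ j ∈ range (2 * N),
      cw N d (j + 1) * (ps A (((j + 1 : ℕ) : ZMod A) * ((d : ZMod A) * u))).re)
      ≤ d * (2 + 2 * (2 * N / d)) := by
        apply mul_le_mul_of_nonneg_left _ hd'.le
        linarith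
    _ = 2 * d + 4 * N := by
        field_simp
        ring

/-- summation by parts, twice -/
theorem parts (c : ℕ → ℝ) (t : ℝ) (M : ℕ) :
    (2 - 2 * Real.cos t) * (c 0 + 2 * ∑ j ∈ range M, c (j + 1) * Real.cos (((j : ℝ) + 1) * t)) +
      2 * ∑ j ∈ range M, (c j - 2 * c (j + 1) + c (j + 2)) * Real.cos (((j : ℝ) + 1) * t) =
    2 * (c 0 - c 1) + 2 * c (M + 1) * Real.cos (M * t) - 2 * c M * Real.cos (((M : ℝ) + 1) * t) := by
  induction M with
  | zero => simp; ring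
  | succ M ih =>
    rw [sum_range_succ, sum_range_succ]
    have h1 : Real.cos (((M : ℝ) + 2) * t) + Real.cos ((M : ℝ) * t) =
        2 * Real.cos t * Real.cos (((M : ℝ) + 1) * t) := by
      have e1 : ((M : ℝ) + 2) * t = ((M : ℝ) + 1) * t + t := by ring
      have e2 : (M : ℝ) * t = ((M : ℝ) + 1) * t - t := by ring
      rw [e1, e2, Real.cos_add, Real.cos_sub]
      ring
    have h2 : (((M + 1 : ℕ) : ℝ) + 1) * t = ((M : ℝ) + 2) * t := by
      push_cast
      ring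
    have h3 : ((M + 1 : ℕ) : ℝ) * t = ((M : ℝ) + 1) * t := by
      push_cast
      ring
    rw [h2, h3]
    have h4 : Real.cos (((M : ℝ) + 2) * t) =
        2 * Real.cos t * Real.cos (((M : ℝ) + 1) * t) - Real.cos ((M : ℝ) * t) := by
      linarith
    rw [h4]
    have e3 : M + 1 + 1 = M + 2 := rfl
    rw [e3]
    linear_combination ih

theorem convex_cw (N d : ℕ) (hN : 1 ≤ N) (j : ℕ) :
    0 ≤ cw N d j - 2 * cw N d (j + 1) + cw N d (j + 2) := by
  have hN' : (0 : ℝ) < N := by exact_mod_cast hN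
  rcases le_or_gt (2 - (d : ℝ) * (j + 1 : ℕ) / N) 0 with h | h
  · have h1 : cw N d (j + 1) = 0 := max_eq_left h
    have h2 : 0 ≤ cw N d j := le_max_left _ _
    have h3 : 0 ≤ cw N d (j + 2) := le_max_left _ _
    rw [h1]
    linarith
  · have h1 : cw N d (j + 1) = 2 - (d : ℝ) * (j + 1 : ℕ) / N := max_eq_right h.le
    have h2 : 2 - (d : ℝ) * j / N ≤ cw N d j := le_max_right _ _
    have h3 : 2 - (d : ℝ) * (j + 2 : ℕ) / N ≤ cw N d (j + 2) := le_max_right _ _
    rw [h1]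
    have h4 : (2 - (d : ℝ) * j / N) - 2 * (2 - (d : ℝ) * (j + 1 : ℕ) / N) +
        (2 - (d : ℝ) * (j + 2 : ℕ) / N) = 0 := by
      push_cast
      ring
    linarith

theorem telescope (c : ℕ → ℝ) (M : ℕ) :
    ∑ j ∈ range M, (c j - 2 * c (j + 1) + c (j + 2)) = (c 0 - c 1) - (c M - c (M + 1)) := by
  induction M with
  | zero => simp
  | succ M ih =>
    rw [sum_range_succ, ih]
    have e3 : M + 1 + 1 = M + 2 := rfl
    rw [e3]
    ring

theorem Th_far (A N d : ℕ) [NeZero A] (hd : 1 ≤ d) (hN : 1 ≤ N) (u : ZMod A) (γ : ℝ)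
    (hγ : 0 < γ) (hu : γ ≤ nrm A (d * u)) : Th A N d u ≤ d ^ 2 / (4 * N * γ ^ 2) := by
  have hN' : (0 : ℝ) < N := by exact_mod_cast hN
  have hd' : (0 : ℝ) < d := by exact_mod_cast hd
  have hA' : (0 : ℝ) < A := Nat.cast_pos.mpr (Nat.pos_of_ne_zero (NeZero.ne A))
  set v : ZMod A := (d : ZMod A) * u with hv
  set t : ℝ := 2 * Real.pi * (v.valMinAbs : ℝ) / A with ht
  have hcos : ∀ k : ℕ, (ps A ((k : ZMod A) * v)).re = Real.cos (k * t) := by
    intro k
    have h1 : (k : ZMod A) * v = (((k : ℤ) * v.valMinAbs : ℤ) : ZMod A) := by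
      push_cast
      rfl
    rw [h1, ps_int]
    have h2 : 2 * (Real.pi : ℂ) * Complex.I * (((k : ℤ) * v.valMinAbs : ℤ) : ℂ) / A =
        ((k * t : ℝ) : ℂ) * Complex.I := by
      rw [ht]
      push_cast
      ring
    rw [h2, Complex.exp_ofReal_mul_I_re]
  have habs : |t| = 2 * Real.pi * nrm A v := by
    rw [ht]
    unfold nrm
    rw [abs_div, abs_mul, abs_of_nonneg (by positivity : (0 : ℝ) ≤ 2 * Real.pi),
      abs_of_pos hA']
    ring
  have hnle : nrm A v ≤ 1 / 2 := by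
    unfold nrm
    rw [div_le_iff₀ hA']
    have h1 := ZMod.natAbs_valMinAbs_le v
    have h2 : (v.valMinAbs.natAbs : ℝ) ≤ (A : ℝ) / 2 := by
      have h3 : 2 * v.valMinAbs.natAbs ≤ A := by omega
      have h4 : (2 : ℝ) * v.valMinAbs.natAbs ≤ A := by exact_mod_cast h3
      linarith
    rw [Nat.cast_natAbs, Int.cast_abs] at h2
    linarith
  have htpi : |t| ≤ Real.pi := by
    rw [habs]
    nlinarith [Real.pi_pos]
  have hcost : 16 * γ ^ 2 ≤ 2 - 2 * Real.cos t := by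
    have h1 := Real.cos_le_one_sub_mul_cos_sq htpi
    have h2 : 2 / Real.pi ^ 2 * t ^ 2 = 8 * nrm A v ^ 2 := by
      rw [← sq_abs t, habs]
      have := Real.pi_pos.ne'
      field_simp
      ring
    have h3 : γ ^ 2 ≤ nrm A v ^ 2 := pow_le_pow_left₀ hγ.le hu 2
    rw [h2] at h1
    linarith
  have hfin : Th A N d u = d * (cw N d 0 + 2 * ∑ j ∈ range (2 * N),
      cw N d (j + 1) * Real.cos (((j : ℝ) + 1) * t)) := by
    rw [Th_sym]
    have h0 : cw N d 0 = 2 := by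
      unfold cw
      simp
    rw [h0]
    congr 3
    refine sum_congr rfl fun j _ => ?_
    rw [hcos]
    push_cast
    rfl
  have hz1 : cw N d (2 * N) = 0 := by
    unfold cw
    rw [max_eq_left]
    rw [sub_nonpos, le_div_iff₀ hN']
    push_cast
    have : (1 : ℝ) ≤ d := by exact_mod_cast hd
    nlinarith
  have hz2 : cw N d (2 * N + 1) = 0 := by
    unfold cw
    rw [max_eq_left]
    rw [sub_nonpos, le_div_iff₀ hN']
    push_cast
    have : (1 : ℝ) ≤ d := by exact_mod_cast hd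
    nlinarith
  have hp := parts (cw N d) t (2 * N)
  rw [hz1, hz2] at hp
  have htel := telescope (cw N d) (2 * N)
  rw [hz1, hz2] at htel
  have hsecond : -∑ j ∈ range (2 * N), (cw N d j - 2 * cw N d (j + 1) + cw N d (j + 2)) ≤
      ∑ j ∈ range (2 * N), (cw N d j - 2 * cw N d (j + 1) + cw N d (j + 2)) *
        Real.cos (((j : ℝ) + 1) * t) := by
    rw [← sum_neg_distrib]
    refine sum_le_sum fun j _ => ?_
    have h1 := convex_cw N d hN j
    have h2 := Real.neg_one_le_cos (((j : ℝ) + 1) * t)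
    nlinarith
  have hstep : cw N d 0 - cw N d 1 ≤ d / N := by
    have h0 : cw N d 0 = 2 := by
      unfold cw
      simp
    have h1 : 2 - (d : ℝ) * (1 : ℕ) / N ≤ cw N d 1 := le_max_right _ _
    rw [h0]
    push_cast at h1
    rw [mul_one] at h1
    linarith
  set S := cw N d 0 + 2 * ∑ j ∈ range (2 * N),
      cw N d (j + 1) * Real.cos (((j : ℝ) + 1) * t) with hS
  have hS1 : (2 - 2 * Real.cos t) * S ≤ 4 * (d / N) := by
    nlinarith
  have hS2 : 16 * γ ^ 2 * S ≤ 4 * (d / N) := by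
    rcases le_or_gt S 0 with h | h
    · have h1 : 16 * γ ^ 2 * S ≤ 0 := mul_nonpos_of_nonneg_of_nonpos (by positivity) h
      have h2 : 0 ≤ 4 * ((d : ℝ) / N) := by positivity
      linarith
    · exact (mul_le_mul_of_nonneg_right hcost h.le).trans hS1
  rw [hfin, le_div_iff₀ (by positivity)]
  have h9 : (d : ℝ) * S * (4 * N * γ ^ 2) = (d * N / 4) * (16 * γ ^ 2 * S) := by ring
  rw [h9]
  calc (d * N / 4 : ℝ) * (16 * γ ^ 2 * S) ≤ (d * N / 4) * (4 * (d / N)) :=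
        mul_le_mul_of_nonneg_left hS2 (by positivity)
    _ = d ^ 2 := by
        field_simp

end Stz
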